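import Mathlib
import Pool.Agent.TH170.MF.Fourier
import Pool.Agent.TH170.MF.Mean
import Pool.Agent.TH170.MF.Count

/-!
# The number of odd sign functions on a group that kill a vector modulo a prime number
-/

set_option linter.unusedSectionVars false
set_option linter.unusedVariables false

namespace Pool.Agent.TH170.GC

open Real Finset Module Pool.Agent.TH170.MF

/-- The sum of the powers of the cosines modulo `p`. -/
noncomputable def sig (p : ℕ) [NeZero p] (a : ℝ) : ℝ := ∑ t : ZMod p, cw p t ^ a

theorem sig_nonneg (p : ℕ) [NeZero p] (a : ℝ) : 0 ≤ sig p a :=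
  sum_nonneg fun t _ => rpow_nonneg (cw_nonneg p t) _

/-- All functions with values `1` and `-1` that are odd with respect to `c`. -/
def oddSigns (X : Type*) (c : X → X) : Set (X → ℤ) := {f | OddSign c f}

theorem finite_oddSigns {X : Type*} [Finite X] (c : X → X) : (oddSigns X c).Finite := by
  refine Set.Finite.subset (Set.Finite.pi' (fun _ : X => (Set.finite_insert.2
    (Set.finite_singleton (-1)) : ({1, -1} : Set ℤ).Finite))) ?_
  intro f hf x
  rcases hf.1 x with h | h
  · exact Or.inl h
  · exact Or.inr h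

variable {G : Type*} [Group G] [Fintype G] [DecidableEq G] {p : ℕ} [Fact p.Prime]
  {S : Type*} [AddCommGroup S] [Module (ZMod p) S] [Module.Finite (ZMod p) S]

/-- The number of the odd sign functions `f` on `G` with `∑ f x • L x = 0`. -/
theorem ncard_kill {c : G} (hc : c * c = 1) (hc1 : c ≠ 1) (hp : p ≠ 2) {g : ℕ}
    (hg : Fintype.card G = 2 * g) (L : G → S) (R : G → S →ₗ[ZMod p] S)
    (hL : ∀ γ x, L (γ * x) = R γ (L x)) (hodd : ∀ x, L (c * x) = - L x)
    (hspan : Submodule.span (ZMod p) (Set.range L) = ⊤) [Nontrivial S] :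
    (({f ∈ oddSigns G (fun x => c * x) | ∑ x, ((f x : ℤ) : ZMod p) • L x = 0}.ncard : ℕ) : ℝ) *
      p ^ finrank (ZMod p) S ≤
      2 ^ g * sig p ((g : ℝ) / finrank (ZMod p) S) ^ finrank (ZMod p) S := by
  classical
  have hcc : ∀ x : G, c * (c * x) = x := fun x => by rw [← mul_assoc, hc, one_mul]
  have hne : ∀ x : G, c * x ≠ x := fun x h => hc1 (by rwa [mul_eq_right] at h)
  obtain ⟨T, hT⟩ := exists_transversal (c := fun x : G => c * x) hcc hne
  have hTg : T.card = g := by
    have := card_transversal (c := fun x : G => c * x) hcc hT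
    omega
  -- a basis of translates
  obtain ⟨κ, a, ha, hs, hli⟩ := exists_linearIndependent' (ZMod p) L
  have hfin : Finite κ := hli.finite
  have hfint : Fintype κ := Fintype.ofFinite κ
  let b : Basis κ (ZMod p) S := Basis.mk hli (by rw [hs, hspan])
  have hb : ∀ k, b k = L (a k) := fun k => by rw [Basis.mk_apply]; rfl
  have hcard : Fintype.card κ = finrank (ZMod p) S := (finrank_eq_card_basis b).symm
  have hn : 0 < finrank (ZMod p) S := finrank_pos
  have hκ : Nonempty κ := Fintype.card_pos_iff.1 (by rw [hcard]; exact hn)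
  have hodd' : ∀ k x, b.repr (L (c * x)) k = - b.repr (L x) k := by
    intro k x
    rw [hodd, map_neg]
    rfl
  have hone : ∀ k l, b.repr (L (a l)) k = if k = l then 1 else 0 := by
    intro k l
    rw [← hb, Basis.repr_self, Finsupp.single_apply]
    simp only [eq_comm]
  have hinv : ∀ (γ : G) k x, b.repr (L (γ • x)) k =
      ∑ l, b.repr (L (γ • a l)) k * b.repr (L x) l := by
    intro γ k x
    rw [smul_eq_mul, hL]
    conv_lhs => rw [← b.sum_repr (L x)]
    rw [map_sum, map_sum, Finsupp.finsetSum_apply]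
    refine sum_congr rfl fun l _ => ?_
    rw [map_smul, map_smul, hb, smul_eq_mul, hL, Finsupp.smul_apply, smul_eq_mul, mul_comm]
  have hcount := fourier_count p (κ := κ) (T := T) (fun k x => b.repr (L x) k)
  have hsum := sum_prod_le (G := G) p (c := fun x : G => c * x) hcc hT a
    (fun k x => b.repr (L x) k) hodd' hone hinv
  have hprod : ∀ v : κ → ZMod p, ∏ x : T, cw p (∑ k, v k * b.repr (L x) k) =
      ∏ x ∈ T, cw p (∑ k, v k * b.repr (L x) k) := fun v =>
    prod_coe_sort T (fun x => cw p (∑ k, v k * b.repr (L x) k))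
  rw [sum_congr rfl fun v _ => hprod v, Fintype.card_coe, hcard, hTg] at hcount
  rw [hcard, hTg] at hsum
  have h2 : (2 : ZMod p) ≠ 0 := by
    intro h
    have h3 : ((2 : ℕ) : ZMod p) = 0 := by exact_mod_cast h
    rw [ZMod.natCast_eq_zero_iff] at h3
    exact hp ((Nat.prime_dvd_prime_iff_eq Fact.out Nat.prime_two).1 h3)
  have hle : ({f ∈ oddSigns G (fun x => c * x) |
      ∑ x, ((f x : ℤ) : ZMod p) • L x = 0}.ncard) ≤
      ((signs T).filter (fun ε => ∀ k, ∑ x : T, ((ε x : ℤ) : ZMod p) *
        b.repr (L x) k = 0)).card := by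
    rw [← Set.ncard_coe_finset]
    refine Set.ncard_le_ncard_of_injOn (fun f => fun x : T => f x) ?_ ?_ (Finset.finite_toSet _)
    · rintro f ⟨hf, hf0⟩
      rw [mem_coe, mem_filter]
      refine ⟨(mem_signs _).2 fun x => hf.1 x, fun k => ?_⟩
      rw [sum_transversal (c := fun x : G => c * x) hcc hT] at hf0
      have h3 : ∀ x ∈ T, ((f x : ℤ) : ZMod p) • L x + ((f (c * x) : ℤ) : ZMod p) • L (c * x) =
          (2 : ZMod p) • (((f x : ℤ) : ZMod p) • L x) := by
        intro x _
        have h4 : f (c * x) = - f x := hf.2 x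
        rw [h4, hodd, two_smul]
        push_cast
        rw [neg_smul, smul_neg, neg_neg]
      rw [sum_congr rfl h3, ← smul_sum] at hf0
      have h4 : ∑ x ∈ T, ((f x : ℤ) : ZMod p) • L x = 0 :=
        (smul_eq_zero.1 hf0).resolve_left h2
      have h5 : b.repr (∑ x ∈ T, ((f x : ℤ) : ZMod p) • L x) k = 0 := by
        rw [h4, map_zero]
        rfl
      rw [map_sum, Finsupp.finsetSum_apply] at h5
      rw [sum_coe_sort T (fun x => ((f x : ℤ) : ZMod p) * b.repr (L x) k), ← h5]
      exact sum_congr rfl fun x _ => by rw [map_smul, Finsupp.smul_apply, smul_eq_mul]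
    · intro f hf f' hf' h
      funext x
      by_cases hx : x ∈ T
      · exact congrFun h ⟨x, hx⟩
      · have hx' : c * x ∈ T := by
          rw [hT]
          rw [hcc]
          exact hx
        have h1 : f (c * x) = f' (c * x) := congrFun h ⟨c * x, hx'⟩
        have h3 : f (c * x) = - f x := hf.1.2 x
        have h4 : f' (c * x) = - f' x := hf'.1.2 x
        rw [h3, h4] at h1
        exact neg_injective h1
  calc _ ≤ _ := mul_le_mul_of_nonneg_right (Nat.cast_le.2 hle) (by positivity)
    _ ≤ _ := hcount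
    _ ≤ _ := mul_le_mul_of_nonneg_left hsum (by positivity)

end Pool.Agent.TH170.GC
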