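import Mathlib
import Pool.Agent.TH170.GC.Mod

/-!
# The sum of powers of cosines for small primes
-/

set_option linter.unusedSectionVars false
set_option linter.unusedVariables false

namespace Pool.Agent.TH170.GC

open Real Finset Module Pool.Agent.TH170.MF

theorem sig_le {N : ℕ} [NeZero N] (hodd : Odd N) {a : ℝ} (ha : 0 < a) :
    sig N a ≤ 1 + N * exp (-(π ^ 2 * a / (2 * N ^ 2))) := by
  classical
  have hN : (0 : ℝ) < N := Nat.cast_pos.2 (NeZero.pos N)
  obtain ⟨u, hu⟩ : ∃ u : ZMod N, 2 * u = 1 := by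
    obtain ⟨k, hk⟩ := hodd
    refine ⟨-(k : ZMod N), ?_⟩
    have h1 : ((2 * k + 1 : ℕ) : ZMod N) = 0 := by
      rw [← hk, ZMod.natCast_self]
    push_cast at h1
    linear_combination -h1
  have hu' : u * 2 = 1 := by rw [mul_comm, hu]
  have h1 : ∑ t : ZMod N, cw N t ^ a = ∑ s : ZMod N, cw N (u * s) ^ a := by
    symm
    refine Function.Bijective.sum_comp ⟨?_, ?_⟩ (fun t => cw N t ^ a)
    · intro s s' h
      have h2 : 2 * (u * s) = 2 * (u * s') := by
        rw [h]
      rwa [← mul_assoc, ← mul_assoc, hu, one_mul, one_mul] at h2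
    · intro t
      exact ⟨2 * t, by rw [← mul_assoc, hu', one_mul]⟩
  have h2 : ∀ s : ZMod N, cw N (u * s) ^ a ≤
      (if s = 0 then 1 else 0) + exp (-(π ^ 2 * a / (2 * N ^ 2))) := by
    intro s
    rw [cw_half N hu]
    have h3 := abs_cos_le_exp (abs_valMinAbs_le N s)
    split_ifs with h4
    · have h5 : |cos (π * (s.valMinAbs : ℝ) / N)| ^ a ≤ 1 :=
        rpow_le_one (abs_nonneg _) (abs_cos_le_one _) ha.le
      have := (exp_pos (-(π ^ 2 * a / (2 * N ^ 2)))).le
      linarith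
    · rw [zero_add]
      refine (rpow_le_rpow (abs_nonneg _) h3 ha.le).trans ?_
      rw [← exp_mul]
      apply exp_le_exp.2
      have h5 : (1 : ℝ) ≤ (s.valMinAbs : ℝ) ^ 2 := by
        have h6 : s.valMinAbs ≠ 0 := fun h7 => h4 ((ZMod.valMinAbs_eq_zero s).1 h7)
        have h7 : (1 : ℤ) ≤ s.valMinAbs ^ 2 := by
          have := Int.one_le_abs h6
          nlinarith [abs_mul_abs_self s.valMinAbs]
        exact_mod_cast h7
      have h6 : (π * (s.valMinAbs : ℝ) / N) ^ 2 / 2 = π ^ 2 / (2 * N ^ 2) *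
          (s.valMinAbs : ℝ) ^ 2 := by
        field_simp
      rw [h6]
      have h7 : 0 ≤ π ^ 2 / (2 * (N : ℝ) ^ 2) := by positivity
      have h8 : π ^ 2 * a / (2 * N ^ 2) = π ^ 2 / (2 * N ^ 2) * a := by ring
      rw [h8]
      nlinarith [mul_le_mul_of_nonneg_left h5 (mul_nonneg h7 ha.le)]
  rw [sig, h1]
  refine (sum_le_sum fun s _ => h2 s).trans (le_of_eq ?_)
  rw [sum_add_distrib, sum_ite_eq' univ (0 : ZMod N) (fun _ => (1 : ℝ)), if_pos (mem_univ _),
    sum_const, card_univ, ZMod.card, nsmul_eq_mul]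

theorem one_le_sig {N : ℕ} [NeZero N] (a : ℝ) : 1 ≤ sig N a := by
  have h1 : cw N 0 = 1 := by
    rw [cw, neg_zero, AddChar.map_zero_eq_one]
    norm_num
  rw [sig]
  refine le_trans (le_of_eq ?_) (single_le_sum (f := fun t => cw N t ^ a)
    (fun t _ => rpow_nonneg (cw_nonneg N t) a) (mem_univ (0 : ZMod N)))
  rw [h1, one_rpow]

/-- The power of the sum is bounded if the dimension is small. -/
theorem sig_pow_le {N : ℕ} [NeZero N] (hodd : Odd N) {a : ℝ} (ha : 0 < a) {n : ℕ}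
    (h : (N : ℝ) * n ≤ exp (π ^ 2 * a / (2 * N ^ 2))) : sig N a ^ n ≤ exp 1 := by
  rcases Nat.eq_zero_or_pos n with rfl | hn
  · rw [pow_zero]
    exact one_le_exp zero_le_one
  have hn' : (0 : ℝ) < n := Nat.cast_pos.2 hn
  have h1 := sig_le hodd ha
  have h2 : (N : ℝ) * exp (-(π ^ 2 * a / (2 * N ^ 2))) ≤ 1 / n := by
    rw [exp_neg, ← div_eq_mul_inv, div_le_div_iff₀ (exp_pos _) hn', one_mul]
    exact h
  calc sig N a ^ n ≤ (1 / n + 1) ^ n :=
        pow_le_pow_left₀ (sig_nonneg N a) (by linarith) n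
    _ ≤ (exp (1 / n)) ^ n := pow_le_pow_left₀ (by positivity) (add_one_le_exp _) n
    _ = exp 1 := by
        rw [← exp_nat_mul, mul_one_div_cancel hn'.ne']

end Pool.Agent.TH170.GC
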