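import Mathlib

/-!
# The simple quotients of a finite algebra
-/

set_option linter.unusedSectionVars false
set_option linter.unusedVariables false

namespace Pool.Agent.TH170.GC

open Finset Module

universe u

variable {p : ℕ} [Fact p.Prime] (A : Type u) [Ring A] [Algebra (ZMod p) A]
  [Module.Finite (ZMod p) A]

theorem exists_fields :
    ∃ (n : ℕ) (D : Fin n → Type u) (d : Fin n → ℕ) (_ : ∀ i, Field (D i))
      (_ : ∀ i, Algebra (ZMod p) (D i)) (_ : ∀ i, Module.Finite (ZMod p) (D i)),
      (∀ i, NeZero (d i)) ∧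
      ∃ π : A →ₐ[ZMod p] Π i, Matrix (Fin (d i)) (Fin (d i)) (D i), Function.Surjective π ∧
        ∀ a w : A, IsUnit (π a) → a * w = 0 → w = 0 := by
  classical
  have hA : Finite A := Module.finite_of_finite (ZMod p)
  have hart : IsArtinianRing A := isArtinian_of_finite
  obtain ⟨n, D, d, h1, h2, h3, h4, ⟨e⟩⟩ :=
    IsSemisimpleRing.exists_algEquiv_pi_matrix_divisionRing_finite (ZMod p)
      (A ⧸ Ring.jacobson A)
  have h5 : ∀ i, Finite (D i) := fun i => Module.finite_of_finite (ZMod p)
  refine ⟨n, D, d, fun i => littleWedderburn (D i), h2, h3, h4, ?_⟩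
  let q : A →ₐ[ZMod p] (A ⧸ Ring.jacobson A) := Ideal.Quotient.mkₐ (ZMod p) (Ring.jacobson A)
  refine ⟨e.toAlgHom.comp q, ?_, ?_⟩
  · exact e.surjective.comp Ideal.Quotient.mk_surjective
  · intro a w ha haw
    have h6 : IsUnit (q a) := by
      have h7 : IsUnit (e.symm (e (q a))) := IsUnit.map e.symm.toAlgHom ha
      rwa [AlgEquiv.symm_apply_apply] at h7
    obtain ⟨b', hb'⟩ := h6.exists_left_inv
    obtain ⟨b, rfl⟩ := Ideal.Quotient.mk_surjective b'
    have h7 : b * a - 1 ∈ Ring.jacobson A := by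
      rw [← Ideal.Quotient.mk_eq_mk_iff_sub_mem, map_mul, map_one]
      exact hb'
    have h8 : Ideal.span {b * a} = ⊤ := by
      by_contra hcon
      obtain ⟨M, hM, hle⟩ := Ideal.exists_le_maximal _ hcon
      have h9 : b * a - 1 ∈ M := Ring.jacobson_le_of_isMaximal M h7
      have h10 : b * a ∈ M := hle (Ideal.subset_span rfl)
      have h11 : (1 : A) ∈ M := by
        have := M.sub_mem h10 h9
        rwa [sub_sub_cancel] at this
      exact hM.ne_top ((Ideal.eq_top_iff_one M).2 h11)
    have h9 : (1 : A) ∈ Ideal.span {b * a} := by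
      rw [h8]
      exact Submodule.mem_top
    obtain ⟨u, hu⟩ := Ideal.mem_span_singleton'.1 h9
    calc w = (u * (b * a)) * w := by rw [hu, one_mul]
      _ = u * (b * (a * w)) := by noncomm_ring
      _ = 0 := by rw [haw, mul_zero, mul_zero]

end Pool.Agent.TH170.GC
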