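import Mathlib
import Pool.Agent.TH170.GC.Wed

/-!
# The simple quotients of the group algebra of a finite group over a prime field
-/

set_option linter.unusedSectionVars false
set_option linter.unusedVariables false

namespace Pool.Agent.TH170.GC

open Finset Module

variable {p : ℕ} [Fact p.Prime] {G : Type*} [Group G] [Fintype G] {n : ℕ} {D : Fin n → Type*}
  {d : Fin n → ℕ} [∀ i, Field (D i)] [∀ i, Algebra (ZMod p) (D i)]
  [∀ i, Module.Finite (ZMod p) (D i)] [∀ i, NeZero (d i)]

theorem sum_finrank_le (π : MonoidAlgebra (ZMod p) G →ₐ[ZMod p]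
    Π i, Matrix (Fin (d i)) (Fin (d i)) (D i)) (hπ : Function.Surjective π) :
    ∑ i, finrank (ZMod p) (D i) ≤ Nat.card (ConjClasses G) := by
  classical
  let τ : MonoidAlgebra (ZMod p) G →ₗ[ZMod p] Π i, D i :=
    { toFun := fun a i => Matrix.trace (π a i)
      map_add' := fun a b => by
        funext i
        rw [map_add, Pi.add_apply, Matrix.trace_add]
        rfl
      map_smul' := fun r a => by
        funext i
        rw [map_smul, Pi.smul_apply, Matrix.trace_smul]
        rfl }
  have hτ : Function.Surjective τ := by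
    intro δ
    obtain ⟨a, ha⟩ := hπ (fun i => Matrix.single 0 0 (δ i))
    refine ⟨a, ?_⟩
    funext i
    change Matrix.trace (π a i) = δ i
    rw [ha, Matrix.trace_single_eq_same]
  have hconj : ∀ x y : G, IsConj x y → τ (MonoidAlgebra.of (ZMod p) G x) =
      τ (MonoidAlgebra.of (ZMod p) G y) := by
    intro x y hxy
    obtain ⟨z, hz⟩ := isConj_iff.1 hxy
    funext i
    change Matrix.trace (π _ i) = Matrix.trace (π _ i)
    rw [← hz, map_mul, map_mul, map_mul, map_mul, Pi.mul_apply, Pi.mul_apply,
      Matrix.trace_mul_comm, ← mul_assoc, ← Pi.mul_apply, ← map_mul, ← map_mul, inv_mul_cancel,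
      map_one, map_one, Pi.one_apply, one_mul]
  let θ : ConjClasses G → Π i, D i := Quotient.lift
    (fun x => τ (MonoidAlgebra.of (ZMod p) G x)) (fun x y h => hconj x y h)
  have hspan : Submodule.span (ZMod p) (Set.range θ) = ⊤ := by
    rw [eq_top_iff]
    rintro δ -
    obtain ⟨a, rfl⟩ := hτ δ
    have h1 : a ∈ Submodule.span (ZMod p) (Set.range (MonoidAlgebra.of (ZMod p) G)) :=
      Submodule.span_mono (Set.image_subset_range _ _) (MonoidAlgebra.mem_span_support_coeff a)
    have h2 := Submodule.mem_map_of_mem (f := τ) h1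
    rw [Submodule.map_span] at h2
    refine Submodule.span_mono ?_ h2
    rintro _ ⟨_, ⟨x, rfl⟩, rfl⟩
    exact ⟨ConjClasses.mk x, rfl⟩
  have h1 : finrank (ZMod p) (Π i, D i) ≤ Fintype.card (ConjClasses G) := by
    rw [← finrank_top, ← hspan]
    exact finrank_range_le_card θ
  rw [Nat.card_eq_fintype_card]
  rwa [Module.finrank_pi_fintype] at h1

theorem sq_mul_finrank_le (π : MonoidAlgebra (ZMod p) G →ₐ[ZMod p]
    Π i, Matrix (Fin (d i)) (Fin (d i)) (D i)) (hπ : Function.Surjective π) (i : Fin n) :
    d i * d i * finrank (ZMod p) (D i) ≤ Fintype.card G := by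
  classical
  let q : MonoidAlgebra (ZMod p) G →ₗ[ZMod p] Matrix (Fin (d i)) (Fin (d i)) (D i) :=
    (LinearMap.proj i).comp π.toLinearMap
  have hq : Function.Surjective q := (Function.surjective_eval i).comp hπ
  have h1 := LinearMap.finrank_le_finrank_of_surjective hq
  rw [Module.finrank_matrix, Fintype.card_fin] at h1
  refine h1.trans (le_of_eq ?_)
  exact finrank_eq_card_basis (MonoidAlgebra.basis G (ZMod p))

end Pool.Agent.TH170.GC
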