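import Mathlib
import Pool.Agent.TH170.GC.Grp

/-!
# Degenerate sign functions kill a vector in a simple module
-/

set_option linter.unusedSectionVars false
set_option linter.unusedVariables false

namespace Pool.Agent.TH170.GC

open Finset Module

/-- The translates of the function `f` on the group satisfy an odd linear relation. -/
def DegSign {G : Type*} [Group G] [Fintype G] (c : G) (f : G → ℤ) : Prop :=
  ∃ u : G → ℤ, u ≠ 0 ∧ (∀ x, u (c * x) = - u x) ∧ ∀ σ, ∑ x, u x * f (σ * x) = 0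

variable {p : ℕ} [Fact p.Prime] {G : Type*} [Group G] [Fintype G]

/-- The element of the group algebra given by a function. -/
noncomputable def fbar (p : ℕ) (f : G → ℤ) : MonoidAlgebra (ZMod p) G :=
  ∑ x, MonoidAlgebra.single x ((f x : ℤ) : ZMod p)

theorem exists_primitive {c : G} {f : G → ℤ} (h : DegSign c f) :
    ∃ u : G → ℤ, (∃ x, ((u x : ℤ) : ZMod p) ≠ 0) ∧ (∀ x, u (c * x) = - u x) ∧
      ∀ σ, ∑ x, u x * f (σ * x) = 0 := by
  classical
  obtain ⟨u, hu0, hodd, hrel⟩ := h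
  obtain ⟨x₀, hx₀⟩ := Function.ne_iff.1 hu0
  obtain ⟨v, hv, hgcd⟩ := Finset.extract_gcd u (s := univ) ⟨x₀, mem_univ _⟩
  set m := Finset.gcd univ u with hm
  have hm0 : m ≠ 0 := by
    intro h
    apply hx₀
    rw [hv x₀ (mem_univ _), h, zero_mul]
    rfl
  refine ⟨v, ?_, ?_, ?_⟩
  · by_contra hcon
    push Not at hcon
    have h1 : (p : ℤ) ∣ Finset.gcd univ v := by
      refine Finset.dvd_gcd fun x _ => ?_
      exact (ZMod.intCast_zmod_eq_zero_iff_dvd (v x) p).1 (hcon x)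
    rw [hgcd] at h1
    have h2 : (p : ℤ) ≤ 1 := Int.le_of_dvd one_pos h1
    have h3 := (Fact.out : p.Prime).two_le
    omega
  · intro x
    apply mul_left_cancel₀ hm0
    rw [← hv _ (mem_univ _), hodd, hv x (mem_univ _)]
    ring
  · intro σ
    apply mul_left_cancel₀ hm0
    rw [mul_zero, mul_sum, ← hrel σ]
    refine sum_congr rfl fun x _ => ?_
    rw [hv x (mem_univ _)]
    ring

theorem fbar_mul (f u : G → ℤ) : fbar p f * fbar p (fun x => u x⁻¹) =
    ∑ σ, MonoidAlgebra.single σ ((∑ x, u x * f (σ * x) : ℤ) : ZMod p) := by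
  classical
  rw [fbar, fbar, sum_mul]
  have h1 : ∀ x, MonoidAlgebra.single x ((f x : ℤ) : ZMod p) *
      ∑ y, MonoidAlgebra.single y ((u y⁻¹ : ℤ) : ZMod p) =
      ∑ σ, MonoidAlgebra.single σ (((f x : ℤ) : ZMod p) * ((u (σ⁻¹ * x) : ℤ) : ZMod p)) := by
    intro x
    rw [mul_sum, ← Equiv.sum_comp (Equiv.mulLeft x⁻¹)]
    refine sum_congr rfl fun σ _ => ?_
    rw [Equiv.coe_mulLeft, MonoidAlgebra.single_mul_single, mul_inv_cancel_left, mul_inv_rev,
      inv_inv]
  rw [sum_congr rfl fun x _ => h1 x, sum_comm]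
  refine sum_congr rfl fun σ _ => ?_
  have h2 := map_sum (MonoidAlgebra.singleAddHom (R := ZMod p) σ)
    (fun x => ((f x : ℤ) : ZMod p) * ((u (σ⁻¹ * x) : ℤ) : ZMod p)) univ
  refine h2.symm.trans ?_
  change MonoidAlgebra.single σ _ = _
  congr 1
  push_cast
  rw [← Equiv.sum_comp (Equiv.mulLeft σ)]
  refine sum_congr rfl fun x _ => ?_
  rw [Equiv.coe_mulLeft, inv_mul_cancel_left, mul_comm]

theorem fbar_ne_zero {u : G → ℤ} (h : ∃ x, ((u x : ℤ) : ZMod p) ≠ 0) :
    fbar p (fun x => u x⁻¹) ≠ 0 := by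
  classical
  obtain ⟨x, hx⟩ := h
  intro h0
  apply hx
  have h1 := congrArg (fun a : MonoidAlgebra (ZMod p) G => (MonoidAlgebra.basis G (ZMod p)).repr a
    x⁻¹) h0
  simp only [fbar, map_sum, map_zero] at h1
  rw [Finsupp.finsetSum_apply] at h1
  have h2 : ∀ y : G, (MonoidAlgebra.basis G (ZMod p)).repr
      (MonoidAlgebra.single y ((u y⁻¹ : ℤ) : ZMod p)) x⁻¹ =
      if y = x⁻¹ then ((u y⁻¹ : ℤ) : ZMod p) else 0 := by
    intro y
    have h3 : MonoidAlgebra.single y ((u y⁻¹ : ℤ) : ZMod p) =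
        ((u y⁻¹ : ℤ) : ZMod p) • MonoidAlgebra.basis G (ZMod p) y := by
      rw [MonoidAlgebra.basis_apply, MonoidAlgebra.smul_single, smul_eq_mul, mul_one]
    rw [h3, map_smul, Basis.repr_self, Finsupp.smul_apply, Finsupp.single_apply]
    split_ifs
    · rw [smul_eq_mul, mul_one]
    · rw [smul_zero]
  rw [sum_congr rfl fun y _ => h2 y, sum_ite_eq' univ x⁻¹ (fun y => ((u y⁻¹ : ℤ) : ZMod p)),
    if_pos (mem_univ _), inv_inv] at h1
  exact h1

variable {n : ℕ} {D : Fin n → Type*}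
  {d : Fin n → ℕ} [∀ i, Field (D i)] [∀ i, Algebra (ZMod p) (D i)]
  [∀ i, Module.Finite (ZMod p) (D i)] [∀ i, NeZero (d i)]

theorem exists_kill (hp : p ≠ 2) (π : MonoidAlgebra (ZMod p) G →ₐ[ZMod p]
    Π i, Matrix (Fin (d i)) (Fin (d i)) (D i))
    (hπ : ∀ a w : MonoidAlgebra (ZMod p) G, IsUnit (π a) → a * w = 0 → w = 0)
    {c : G} (hc : c * c = 1) (hcen : ∀ x, c * x = x * c) {f : G → ℤ} (hf : DegSign c f) :
    ∃ i, ∃ v : Fin (d i) → D i, v ≠ 0 ∧ (π (fbar p f) i).mulVec v = 0 ∧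
      (π (MonoidAlgebra.of (ZMod p) G c) i).mulVec v = - v := by
  classical
  obtain ⟨u, hu, hodd, hrel⟩ := exists_primitive (p := p) hf
  set a := fbar p f with ha
  set w := fbar p (fun x => u x⁻¹) with hw
  set C : MonoidAlgebra (ZMod p) G := MonoidAlgebra.of (ZMod p) G c with hC
  have haw : a * w = 0 := by
    rw [ha, hw, fbar_mul]
    refine sum_eq_zero fun σ _ => ?_
    rw [hrel, Int.cast_zero, MonoidAlgebra.single_zero]
  have hCw : C * w = - w := by
    rw [hw, fbar, mul_sum, ← sum_neg_distrib, ← Equiv.sum_comp (Equiv.mulLeft c)]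
    refine sum_congr rfl fun x _ => ?_
    rw [Equiv.coe_mulLeft, hC, MonoidAlgebra.of_apply, MonoidAlgebra.single_mul_single, one_mul,
      ← mul_assoc, hc, one_mul]
    have h1 : u (c * x)⁻¹ = - u x⁻¹ := by
      rw [mul_inv_rev]
      have h2 : c⁻¹ = c := inv_eq_of_mul_eq_one_right hc
      rw [h2, ← hcen, hodd]
    rw [h1]
    push_cast
    rw [← MonoidAlgebra.single_neg]
  have hCC : C * C = 1 := by
    rw [hC, ← map_mul, hc, map_one]
  have hCa : C * a = a * C := by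
    rw [ha, fbar, mul_sum, sum_mul]
    refine sum_congr rfl fun x _ => ?_
    rw [hC, MonoidAlgebra.of_apply, MonoidAlgebra.single_mul_single,
      MonoidAlgebra.single_mul_single, one_mul, mul_one, hcen]
  set a' := a * (1 - C) + (1 + C) with ha'
  have ha'w : a' * w = 0 := by
    rw [ha', add_mul, mul_assoc, sub_mul, add_mul, one_mul, hCw, sub_neg_eq_add, mul_add, haw]
    simp
  have hun : ¬ IsUnit (π a') := fun h => fbar_ne_zero hu (hπ a' w h ha'w)
  obtain ⟨i, hi⟩ : ∃ i, ¬ IsUnit (π a' i) := by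
    by_contra hcon
    push Not at hcon
    exact hun (Pi.isUnit_iff.2 hcon)
  rw [Matrix.isUnit_iff_isUnit_det, isUnit_iff_ne_zero, not_not] at hi
  obtain ⟨v, hv0, hv⟩ := Matrix.exists_mulVec_eq_zero_iff.2 hi
  have h2 : (2 : D i) ≠ 0 := by
    intro h
    have h3 : (2 : ZMod p) = 0 := by
      apply (algebraMap (ZMod p) (D i)).injective
      rw [map_ofNat, h, map_zero]
    have h4 : ((2 : ℕ) : ZMod p) = 0 := by exact_mod_cast h3
    rw [ZMod.natCast_eq_zero_iff] at h4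
    exact hp ((Nat.prime_dvd_prime_iff_eq Fact.out Nat.prime_two).1 h4)
  set Cm := π C i with hCm
  set F := π a i with hF
  have hCmCm : Cm * Cm = 1 := by
    rw [hCm, ← Pi.mul_apply, ← map_mul, hCC, map_one]
    rfl
  have hCF : Cm * F = F * Cm := by
    rw [hCm, hF, ← Pi.mul_apply, ← Pi.mul_apply, ← map_mul, ← map_mul, hCa]
  have ha'm : π a' i = F * (1 - Cm) + (1 + Cm) := by
    rw [ha', map_add, map_mul, map_sub, map_add, map_one]
    rfl
  rw [ha'm] at hv
  have h3 : ((1 + Cm) * (F * (1 - Cm) + (1 + Cm))).mulVec v = 0 := by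
    rw [← Matrix.mulVec_mulVec, hv, Matrix.mulVec_zero]
  have h4 : (1 + Cm) * (F * (1 - Cm) + (1 + Cm)) = (2 : D i) • (1 + Cm) := by
    have h5 : (1 + Cm) * (F * (1 - Cm) + (1 + Cm)) =
        F - F * Cm + Cm * F - (Cm * F) * Cm + (1 + Cm + Cm + Cm * Cm) := by noncomm_ring
    rw [h5, hCF, mul_assoc F Cm Cm, hCmCm, mul_one, two_smul]
    noncomm_ring
  rw [h4, Matrix.smul_mulVec] at h3
  have h5 : (1 + Cm).mulVec v = 0 := (smul_eq_zero.1 h3).resolve_left h2
  have h6 : Cm.mulVec v = - v := by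
    rw [Matrix.add_mulVec, Matrix.one_mulVec] at h5
    exact (neg_eq_of_add_eq_zero_right h5).symm
  refine ⟨i, v, hv0, ?_, h6⟩
  rw [Matrix.add_mulVec, h5, add_zero, ← Matrix.mulVec_mulVec, Matrix.sub_mulVec,
    Matrix.one_mulVec, h6, sub_neg_eq_add, ← two_smul (D i) v, Matrix.mulVec_smul] at hv
  exact (smul_eq_zero.1 hv).resolve_left h2

end Pool.Agent.TH170.GC
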