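import Mathlib
import Pool.Agent.TH170.GC.Kill
import Pool.Agent.TH170.GC.Sig

/-!
# Counting degenerate sign functions by the simple modules of the group algebra
-/

set_option linter.unusedSectionVars false
set_option linter.unusedVariables false

namespace Pool.Agent.TH170.GC

open Finset Module Pool.Agent.TH170.MF

variable {p : ℕ} [Fact p.Prime] {G : Type*} [Group G] [Fintype G] [DecidableEq G] {n : ℕ}
  {D : Fin n → Type*} {d : Fin n → ℕ} [∀ i, Field (D i)] [∀ i, Algebra (ZMod p) (D i)]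
  [∀ i, Module.Finite (ZMod p) (D i)] [∀ i, NeZero (d i)]

theorem fbar_mulVec (π : MonoidAlgebra (ZMod p) G →ₐ[ZMod p]
    Π i, Matrix (Fin (d i)) (Fin (d i)) (D i)) (i : Fin n) (f : G → ℤ) (v : Fin (d i) → D i) :
    (π (fbar p f) i).mulVec v =
      ∑ x, ((f x : ℤ) : ZMod p) • (π (MonoidAlgebra.of (ZMod p) G x) i).mulVec v := by
  classical
  have h1 : fbar p f = ∑ x, ((f x : ℤ) : ZMod p) • MonoidAlgebra.of (ZMod p) G x := by
    rw [fbar]
    refine sum_congr rfl fun x _ => ?_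
    rw [MonoidAlgebra.of_apply, MonoidAlgebra.smul_single, smul_eq_mul, mul_one]
  rw [h1, map_sum, Finset.sum_apply, Matrix.sum_mulVec]
  refine sum_congr rfl fun x _ => ?_
  rw [map_smul, Pi.smul_apply, Matrix.smul_mulVec]

/-- The number of odd sign functions that kill a given vector. -/
theorem ncard_kill_vec (hp : p ≠ 2) (π : MonoidAlgebra (ZMod p) G →ₐ[ZMod p]
    Π i, Matrix (Fin (d i)) (Fin (d i)) (D i)) (hπ : Function.Surjective π)
    {c : G} (hc : c * c = 1) (hc1 : c ≠ 1) (hcen : ∀ x, c * x = x * c) {g : ℕ}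
    (hg : Fintype.card G = 2 * g) (i : Fin n) (v : Fin (d i) → D i) (hv : v ≠ 0)
    (hcv : (π (MonoidAlgebra.of (ZMod p) G c) i).mulVec v = - v) :
    (({f ∈ oddSigns G (fun x => c * x) | (π (fbar p f) i).mulVec v = 0}.ncard : ℕ) : ℝ) *
      p ^ (d i * finrank (ZMod p) (D i)) ≤
      2 ^ g * sig p ((g : ℝ) / ((d i * finrank (ZMod p) (D i) : ℕ) : ℝ)) ^
        (d i * finrank (ZMod p) (D i)) := by
  classical
  have hfr : finrank (ZMod p) (Fin (d i) → D i) = d i * finrank (ZMod p) (D i) := by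
    rw [Module.finrank_pi_fintype, sum_const, card_univ, Fintype.card_fin, smul_eq_mul]
  let L : G → (Fin (d i) → D i) := fun x => (π (MonoidAlgebra.of (ZMod p) G x) i).mulVec v
  let R : G → (Fin (d i) → D i) →ₗ[ZMod p] (Fin (d i) → D i) := fun γ =>
    (Matrix.mulVecLin (π (MonoidAlgebra.of (ZMod p) G γ) i)).restrictScalars (ZMod p)
  have hL : ∀ γ x, L (γ * x) = R γ (L x) := by
    intro γ x
    change (π (MonoidAlgebra.of (ZMod p) G (γ * x)) i).mulVec v =
      (π (MonoidAlgebra.of (ZMod p) G γ) i).mulVec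
        ((π (MonoidAlgebra.of (ZMod p) G x) i).mulVec v)
    rw [Matrix.mulVec_mulVec, ← Pi.mul_apply, ← map_mul, ← map_mul]
  have hodd : ∀ x, L (c * x) = - L x := by
    intro x
    rw [hcen, hL]
    change (π (MonoidAlgebra.of (ZMod p) G x) i).mulVec
        ((π (MonoidAlgebra.of (ZMod p) G c) i).mulVec v) = _
    rw [hcv, Matrix.mulVec_neg]
  have hspan : Submodule.span (ZMod p) (Set.range L) = ⊤ := by
    rw [eq_top_iff]
    rintro w -
    obtain ⟨k, hk⟩ := Function.ne_iff.1 hv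
    rw [Pi.zero_apply] at hk
    let M : Matrix (Fin (d i)) (Fin (d i)) (D i) :=
      Matrix.of fun l l' => if l' = k then w l * (v k)⁻¹ else 0
    have hM : M.mulVec v = w := by
      funext l
      simp only [M, Matrix.mulVec, dotProduct, Matrix.of_apply, ite_mul, zero_mul,
        sum_ite_eq', mem_univ, if_true]
      rw [mul_assoc, inv_mul_cancel₀ hk, mul_one]
    obtain ⟨a, ha⟩ := hπ (Pi.single i M)
    have ha' : π a i = M := by rw [ha, Pi.single_eq_same]
    let q : MonoidAlgebra (ZMod p) G →ₗ[ZMod p] (Fin (d i) → D i) :=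
      { toFun := fun a => (π a i).mulVec v
        map_add' := fun a b => by rw [map_add, Pi.add_apply, Matrix.add_mulVec]
        map_smul' := fun r a => by
          rw [map_smul, Pi.smul_apply, Matrix.smul_mulVec]
          rfl }
    have h1 : a ∈ Submodule.span (ZMod p) (Set.range (MonoidAlgebra.of (ZMod p) G)) :=
      Submodule.span_mono (Set.image_subset_range _ _) (MonoidAlgebra.mem_span_support_coeff a)
    have h2 := Submodule.mem_map_of_mem (f := q) h1
    rw [Submodule.map_span] at h2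
    have h3 : q a = w := by
      change (π a i).mulVec v = w
      rw [ha', hM]
    rw [h3] at h2
    refine Submodule.span_mono ?_ h2
    rintro _ ⟨_, ⟨x, rfl⟩, rfl⟩
    exact ⟨x, rfl⟩
  have hnt : Nontrivial (Fin (d i) → D i) := ⟨⟨v, 0, hv⟩⟩
  have h1 := ncard_kill hc hc1 hp hg L R hL hodd hspan
  rw [hfr] at h1
  have h2 : {f ∈ oddSigns G (fun x => c * x) | (π (fbar p f) i).mulVec v = 0} =
      {f ∈ oddSigns G (fun x => c * x) | ∑ x, ((f x : ℤ) : ZMod p) • L x = 0} := by
    ext f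
    simp only [Set.mem_sep_iff, fbar_mulVec, L]
  rw [h2]
  exact h1

/-- The odd sign functions that are degenerate at one component. -/
def degAt (π : MonoidAlgebra (ZMod p) G →ₐ[ZMod p] Π i, Matrix (Fin (d i)) (Fin (d i)) (D i))
    (c : G) (i : Fin n) : Set (G → ℤ) :=
  {f | f ∈ oddSigns G (fun x => c * x) ∧ ∃ v : Fin (d i) → D i, v ≠ 0 ∧
    (π (fbar p f) i).mulVec v = 0 ∧ (π (MonoidAlgebra.of (ZMod p) G c) i).mulVec v = - v}

theorem ncard_degAt (hp : p ≠ 2) (π : MonoidAlgebra (ZMod p) G →ₐ[ZMod p]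
    Π i, Matrix (Fin (d i)) (Fin (d i)) (D i)) (hπ : Function.Surjective π)
    {c : G} (hc : c * c = 1) (hc1 : c ≠ 1) (hcen : ∀ x, c * x = x * c) {g : ℕ}
    (hg : Fintype.card G = 2 * g) (i : Fin n) :
    (((degAt π c i).ncard : ℕ) : ℝ) * (p - 1) ≤
      2 ^ g * sig p ((g : ℝ) / ((d i * finrank (ZMod p) (D i) : ℕ) : ℝ)) ^
        (d i * finrank (ZMod p) (D i)) := by
  classical
  have hDfin : Finite (D i) := Module.finite_of_finite (ZMod p)
  have hDft : Fintype (D i) := Fintype.ofFinite _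
  set m := d i * finrank (ZMod p) (D i) with hm
  set σ := sig p ((g : ℝ) / (m : ℝ)) with hσ
  have hcardD : p ≤ Fintype.card (D i) := by
    rw [Module.card_eq_pow_finrank (K := ZMod p) (V := D i), ZMod.card]
    have h1 : 1 ≤ finrank (ZMod p) (D i) := finrank_pos
    calc p = p ^ 1 := (pow_one p).symm
      _ ≤ _ := Nat.pow_le_pow_right (Fact.out : p.Prime).pos h1
  have hcardS : Fintype.card (Fin (d i) → D i) = p ^ m := by
    rw [Fintype.card_fun, Fintype.card_fin, Module.card_eq_pow_finrank (K := ZMod p) (V := D i),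
      ZMod.card, ← pow_mul, mul_comm]
  have hp0 : (0 : ℝ) < p := Nat.cast_pos.2 (Fact.out : p.Prime).pos
  have hp1 : (1 : ℝ) ≤ p := Nat.one_le_cast.2 (Fact.out : p.Prime).one_le
  let Fs : Finset (G → ℤ) := (finite_oddSigns (X := G) (fun x => c * x)).toFinset
  let V : Finset (Fin (d i) → D i) := univ.filter (fun v => v ≠ 0 ∧
    (π (MonoidAlgebra.of (ZMod p) G c) i).mulVec v = - v)
  let N : Finset (G → ℤ) := Fs.filter (fun f => ∃ v ∈ V, (π (fbar p f) i).mulVec v = 0)
  have hN : (degAt π c i).ncard = N.card := by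
    rw [← Set.ncard_coe_finset]
    congr 1
    ext f
    simp only [degAt, Set.mem_ofPred_eq, N, Fs, V, coe_filter, Set.Finite.mem_toFinset, mem_filter,
      mem_univ, true_and]
    constructor
    · rintro ⟨h1, v, h2, h3, h4⟩
      exact ⟨h1, v, ⟨h2, h4⟩, h3⟩
    · rintro ⟨h1, v, ⟨h2, h4⟩, h3⟩
      exact ⟨h1, v, h2, h3, h4⟩
  -- double counting
  have h1 : N.card * (p - 1) ≤ ∑ v ∈ V, (Fs.filter (fun f => (π (fbar p f) i).mulVec v = 0)).card := by
    have h2 : ∑ v ∈ V, (Fs.filter (fun f => (π (fbar p f) i).mulVec v = 0)).card =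
        ∑ f ∈ Fs, (V.filter (fun v => (π (fbar p f) i).mulVec v = 0)).card := by
      simp only [card_filter]
      rw [sum_comm]
    rw [h2, ← smul_eq_mul, ← sum_const]
    refine (sum_le_sum fun f hf => ?_).trans (sum_le_sum_of_subset (filter_subset _ _))
    obtain ⟨v, hv, hfv⟩ := (mem_filter.1 hf).2
    have hv' := (mem_filter.1 hv).2
    have h3 : ((univ.filter (fun α : D i => α ≠ 0)).image (fun α => α • v)).card =
        Fintype.card (D i) - 1 := by
      rw [card_image_of_injOn]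
      · rw [filter_ne' univ (0 : D i), card_erase_of_mem (mem_univ _), card_univ]
      · intro α _ β _ h
        have h4 : (α - β) • v = 0 := by
          rw [sub_smul]
          exact sub_eq_zero.2 h
        exact sub_eq_zero.1 ((smul_eq_zero.1 h4).resolve_right hv'.1)
    have h4 : p - 1 ≤ Fintype.card (D i) - 1 := Nat.sub_le_sub_right hcardD 1
    rw [← h3] at h4
    refine h4.trans (card_le_card ?_)
    intro w hw
    obtain ⟨α, hα, rfl⟩ := mem_image.1 hw
    have hα' := (mem_filter.1 hα).2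
    rw [mem_filter]
    refine ⟨mem_filter.2 ⟨mem_univ _, smul_ne_zero hα' hv'.1, ?_⟩, ?_⟩
    · rw [Matrix.mulVec_smul, hv'.2, smul_neg]
    · rw [Matrix.mulVec_smul, hfv, smul_zero]
  have h2 : ∀ v ∈ V, (((Fs.filter (fun f => (π (fbar p f) i).mulVec v = 0)).card : ℕ) : ℝ) *
      p ^ m ≤ 2 ^ g * σ ^ m := by
    intro v hv
    have hv' := (mem_filter.1 hv).2
    have h3 := ncard_kill_vec hp π hπ hc hc1 hcen hg i v hv'.1 hv'.2
    refine le_trans (le_of_eq ?_) h3
    congr 2
    rw [← Set.ncard_coe_finset]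
    congr 1
    ext f
    simp only [Fs, coe_filter, Set.Finite.mem_toFinset, Set.mem_sep_iff]
  have h3 : (((degAt π c i).ncard : ℕ) : ℝ) * (p - 1) * p ^ m ≤ p ^ m * (2 ^ g * σ ^ m) := by
    rw [hN]
    have h4 : ((N.card * (p - 1) : ℕ) : ℝ) ≤
        ∑ v ∈ V, (((Fs.filter (fun f => (π (fbar p f) i).mulVec v = 0)).card : ℕ) : ℝ) := by
      exact_mod_cast h1
    rw [Nat.cast_mul, Nat.cast_sub (Fact.out : p.Prime).one_le, Nat.cast_one] at h4
    calc (N.card : ℝ) * (p - 1) * p ^ m ≤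
        (∑ v ∈ V, (((Fs.filter (fun f => (π (fbar p f) i).mulVec v = 0)).card : ℕ) : ℝ)) *
          p ^ m := mul_le_mul_of_nonneg_right h4 (by positivity)
      _ = ∑ v ∈ V, (((Fs.filter (fun f => (π (fbar p f) i).mulVec v = 0)).card : ℕ) : ℝ) *
          p ^ m := by rw [sum_mul]
      _ ≤ ∑ v ∈ V, 2 ^ g * σ ^ m := sum_le_sum h2
      _ = V.card * (2 ^ g * σ ^ m) := by rw [sum_const, nsmul_eq_mul]
      _ ≤ p ^ m * (2 ^ g * σ ^ m) := by
        refine mul_le_mul_of_nonneg_right ?_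
          (mul_nonneg (by positivity) (pow_nonneg (sig_nonneg _ _) _))
        have h5 : V.card ≤ p ^ m := by
          rw [← hcardS]
          exact (card_le_card (filter_subset _ _)).trans (le_of_eq card_univ)
        exact_mod_cast h5
  have h4 : (0 : ℝ) < p ^ m := by positivity
  nlinarith

theorem ncard_degSign (hp : p ≠ 2) {c : G} (hc : c * c = 1) (hc1 : c ≠ 1)
    (hcen : ∀ x, c * x = x * c) {g : ℕ} (hg : Fintype.card G = 2 * g) {k : ℕ}
    (hk : Nat.card (ConjClasses G) ≤ k) {B : ℝ} (hB0 : 0 ≤ B)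
    (hB : ∀ m : ℕ, 0 < m → m * m ≤ 2 * g * k → sig p ((g : ℝ) / (m : ℝ)) ^ m ≤ B) :
    (({f ∈ oddSigns G (fun x => c * x) | DegSign c f}.ncard : ℕ) : ℝ) * (p - 1) ≤
      2 ^ g * (k * B) := by
  classical
  have hfin : Module.Finite (ZMod p) (MonoidAlgebra (ZMod p) G) :=
    Module.Finite.of_basis (MonoidAlgebra.basis G (ZMod p))
  obtain ⟨n, D, d, _, _, _, hd, π, hπ, hun⟩ := exists_fields (p := p)
    (MonoidAlgebra (ZMod p) G)
  have hcov : {f ∈ oddSigns G (fun x => c * x) | DegSign c f} ⊆ ⋃ i, degAt π c i := by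
    rintro f ⟨h1, h2⟩
    obtain ⟨i, v, h3, h4, h5⟩ := exists_kill hp π hun hc hcen h2
    exact Set.mem_iUnion.2 ⟨i, h1, v, h3, h4, h5⟩
  have hfinU : (⋃ i, degAt π c i).Finite := Set.finite_iUnion fun i =>
    (finite_oddSigns (X := G) (fun x => c * x)).subset fun f hf => hf.1
  have h1 : (({f ∈ oddSigns G (fun x => c * x) | DegSign c f}.ncard : ℕ) : ℝ) ≤
      ∑ i, (((degAt π c i).ncard : ℕ) : ℝ) := by
    have h2 : {f ∈ oddSigns G (fun x => c * x) | DegSign c f}.ncard ≤
        ∑ i, (degAt π c i).ncard :=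
      (Set.ncard_le_ncard hcov hfinU).trans (Set.ncard_iUnion_le_of_fintype _)
    exact_mod_cast h2
  have hsum := sum_finrank_le π hπ
  have hn : n ≤ k := by
    refine le_trans ?_ (hsum.trans hk)
    calc n = ∑ _i : Fin n, 1 := by rw [sum_const, card_univ, Fintype.card_fin, smul_eq_mul,
          mul_one]
      _ ≤ _ := sum_le_sum fun i _ => finrank_pos
  have h2 : ∀ i, (((degAt π c i).ncard : ℕ) : ℝ) * (p - 1) ≤ 2 ^ g * B := by
    intro i
    refine (ncard_degAt hp π hπ hc hc1 hcen hg i).trans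
      (mul_le_mul_of_nonneg_left (hB _ ?_ ?_) (by positivity))
    · exact Nat.mul_pos (NeZero.pos (d i)) finrank_pos
    · have h3 := sq_mul_finrank_le π hπ i
      have h4 : finrank (ZMod p) (D i) ≤ k :=
        (single_le_sum (f := fun i => finrank (ZMod p) (D i)) (fun _ _ => Nat.zero_le _)
          (mem_univ i)).trans (hsum.trans hk)
      rw [hg] at h3
      calc d i * finrank (ZMod p) (D i) * (d i * finrank (ZMod p) (D i)) =
          (d i * d i * finrank (ZMod p) (D i)) * finrank (ZMod p) (D i) := by ring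
        _ ≤ 2 * g * k := Nat.mul_le_mul h3 h4
  have hp1 : (1 : ℝ) ≤ p := Nat.one_le_cast.2 (Fact.out : p.Prime).one_le
  calc (({f ∈ oddSigns G (fun x => c * x) | DegSign c f}.ncard : ℕ) : ℝ) * (p - 1) ≤
      (∑ i, (((degAt π c i).ncard : ℕ) : ℝ)) * (p - 1) :=
        mul_le_mul_of_nonneg_right h1 (by linarith)
    _ = ∑ i, (((degAt π c i).ncard : ℕ) : ℝ) * (p - 1) := by rw [sum_mul]
    _ ≤ ∑ _i : Fin n, 2 ^ g * B := sum_le_sum fun i _ => h2 i
    _ = 2 ^ g * (n * B) := by
        rw [sum_const, card_univ, Fintype.card_fin, nsmul_eq_mul]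
        ring
    _ ≤ 2 ^ g * (k * B) := by
        refine mul_le_mul_of_nonneg_left (mul_le_mul_of_nonneg_right ?_ hB0) (by positivity)
        exact_mod_cast hn

end Pool.Agent.TH170.GC
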