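import Mathlib
import Pool.Agent.TH170.GC.Comp

/-!
# The bound in terms of the number of conjugacy classes
-/

set_option linter.unusedSectionVars false
set_option linter.unusedVariables false

namespace Pool.Agent.TH170.GC

open Real Finset Module Pool.Agent.TH170.MF

theorem exists_prime_near {P : ℝ} (hP : 4 ≤ P) :
    ∃ p : ℕ, p.Prime ∧ p ≠ 2 ∧ P / 3 < (p : ℝ) - 1 ∧ (p : ℝ) ≤ P := by
  set n := ⌊P / 2⌋₊ with hn
  have h2 : 2 ≤ n := Nat.le_floor (by push_cast; linarith)
  obtain ⟨p, hp, hnp, hp2⟩ := Nat.exists_prime_lt_and_le_two_mul n (by omega)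
  have h3 : (n : ℝ) ≤ P / 2 := Nat.floor_le (by linarith)
  have h4 : P / 2 < n + 1 := Nat.lt_floor_add_one _
  have h5 : (n : ℝ) + 1 ≤ p := by exact_mod_cast hnp
  have h6 : (p : ℝ) ≤ 2 * n := by exact_mod_cast hp2
  have h7 : (2 : ℝ) ≤ n := by exact_mod_cast h2
  exact ⟨p, hp, by omega, by linarith, by linarith⟩

variable {G : Type*} [Group G] [Fintype G] [DecidableEq G]

theorem ncard_oddSigns_le {c : G} (hc : c * c = 1) (hc1 : c ≠ 1) {g : ℕ}
    (hg : Fintype.card G = 2 * g) : (oddSigns G (fun x => c * x)).ncard ≤ 2 ^ g := by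
  classical
  have hcc : ∀ x : G, c * (c * x) = x := fun x => by rw [← mul_assoc, hc, one_mul]
  have hne : ∀ x : G, c * x ≠ x := fun x h => hc1 (by rwa [mul_eq_right] at h)
  obtain ⟨T, hT⟩ := exists_transversal (c := fun x : G => c * x) hcc hne
  have hTg : T.card = g := by
    have := card_transversal (c := fun x : G => c * x) hcc hT
    omega
  have h1 : (signs T).card = 2 ^ g := by
    rw [signs, Fintype.card_piFinset]
    rw [prod_const, card_pair (by norm_num), card_univ, Fintype.card_coe, hTg]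
  rw [← h1, ← Set.ncard_coe_finset]
  refine Set.ncard_le_ncard_of_injOn (fun f => fun x : T => f x) ?_ ?_ (Finset.finite_toSet _)
  · intro f hf
    rw [mem_coe]
    exact (mem_signs _).2 fun x => hf.1 x
  · intro f hf f' hf' h
    funext x
    by_cases hx : x ∈ T
    · exact congrFun h ⟨x, hx⟩
    · have hx' : c * x ∈ T := by
        rw [hT]
        rw [hcc]
        exact hx
      have h1 : f (c * x) = f' (c * x) := congrFun h ⟨c * x, hx'⟩
      have h3 : f (c * x) = - f x := hf.2 x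
      have h4 : f' (c * x) = - f' x := hf'.2 x
      rw [h3, h4] at h1
      exact neg_injective h1

theorem pow_quarter {x : ℝ} (hx : 0 < x) : (x ^ (1 / 4 : ℝ)) = √(√x) := by
  rw [sqrt_eq_rpow, sqrt_eq_rpow, ← rpow_mul hx.le]
  norm_num

/-- The number of degenerate odd sign functions on a group with few conjugacy classes. -/
theorem ncard_degSign_le {c : G} (hc : c * c = 1) (hc1 : c ≠ 1)
    (hcen : ∀ x, c * x = x * c) {g : ℕ} (hg : Fintype.card G = 2 * g) :
    (({f ∈ oddSigns G (fun x => c * x) | DegSign c f}.ncard : ℕ) : ℝ) ≤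
      2 ^ g * (7 * Nat.card (ConjClasses G) * ((Nat.card (ConjClasses G) : ℝ) / g) ^ (1 / 4 : ℝ) *
        √(log (2 * g))) := by
  classical
  set k := Nat.card (ConjClasses G) with hk
  have hk1 : 1 ≤ k := Nat.card_pos
  have hk2 : k ≤ 2 * g := by
    rw [hk, ← hg, ← Nat.card_eq_fintype_card]
    exact Nat.card_le_card_of_surjective ConjClasses.mk ConjClasses.mk_surjective
  have hg1 : 1 ≤ g := by omega
  have hgR : (1 : ℝ) ≤ g := by exact_mod_cast hg1
  have hkR : (1 : ℝ) ≤ k := by exact_mod_cast hk1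
  have hlog : 0.69 < log (2 * g) := by
    have h1 : log 2 ≤ log (2 * g) := log_le_log (by norm_num) (by linarith)
    linarith [log_two_gt_d9]
  set l := log (2 * g) with hl
  set N0 : ℝ := √(g / (2 * k)) with hN0
  have hN0pos : 0 < N0 := sqrt_pos.2 (by positivity)
  have hN0sq : N0 ^ 2 = g / (2 * k) := sq_sqrt (by positivity)
  set P : ℝ := 3 / 2 * √(N0 / l) with hP
  have hlpos : 0 < l := by linarith
  have hPsq : P ^ 2 = 9 / 4 * (N0 / l) := by
    rw [hP, mul_pow, sq_sqrt (by positivity)]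
    norm_num
  have hPpos : 0 < P := by positivity
  -- the quarter power
  have hquart : ((k : ℝ) / g) ^ (1 / 4 : ℝ) * √l * √(√2) = √(l / N0) := by
    rw [pow_quarter (by positivity)]
    have h1 : √((k : ℝ) / g) * √2 = 1 / N0 := by
      rw [← sqrt_mul (by positivity), hN0, ← sqrt_one, ← sqrt_div zero_le_one]
      congr 1
      field_simp
    rw [mul_assoc, mul_comm (√l), ← mul_assoc, ← sqrt_mul (sqrt_nonneg _), h1,
      ← sqrt_mul (by positivity)]
    congr 1
    field_simp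
  have hs2 : √(√2) ≤ 1.19 := by
    rw [sqrt_le_left (by norm_num), sqrt_le_left (by norm_num)]
    norm_num
  have hPinv : √(l / N0) * P = 3 / 2 := by
    rw [hP, mul_left_comm, ← sqrt_mul (by positivity)]
    have : l / N0 * (N0 / l) = 1 := by field_simp
    rw [this, sqrt_one]
    norm_num
  set Q : ℝ := ((k : ℝ) / g) ^ (1 / 4 : ℝ) * √l with hQ
  have hQ0 : 0 ≤ Q := by positivity
  have hQ1 : 3 / 2 ≤ Q * 1.19 * P := by
    rw [← hPinv, ← hquart]
    gcongr
  have hgoal : 7 * (k : ℝ) * ((k : ℝ) / g) ^ (1 / 4 : ℝ) * √l = 7 * k * Q := by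
    rw [hQ]
    ring
  rw [hgoal]
  have htot : (({f ∈ oddSigns G (fun x => c * x) | DegSign c f}.ncard : ℕ) : ℝ) ≤ 2 ^ g := by
    have h1 : {f ∈ oddSigns G (fun x => c * x) | DegSign c f}.ncard ≤ 2 ^ g :=
      (Set.ncard_le_ncard (fun f hf => hf.1) (finite_oddSigns _)).trans
        (ncard_oddSigns_le hc hc1 hg)
    exact_mod_cast h1
  by_cases hP4 : P < 4
  · refine htot.trans ?_
    have h1 : 1 ≤ 7 * (k : ℝ) * Q := by
      nlinarith
    calc (2 : ℝ) ^ g = 2 ^ g * 1 := (mul_one _).symm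
      _ ≤ _ := mul_le_mul_of_nonneg_left h1 (by positivity)
  push Not at hP4
  obtain ⟨p, hp, hp2, hp3, hpP⟩ := exists_prime_near hP4
  have hfact : Fact p.Prime := ⟨hp⟩
  have hodd : Odd p := hp.odd_of_ne_two hp2
  have hp0 : (0 : ℝ) < p := Nat.cast_pos.2 hp.pos
  have hpsq : (p : ℝ) ^ 2 ≤ 9 / 4 * (N0 / l) := by
    rw [← hPsq]
    exact pow_le_pow_left₀ hp0.le hpP 2
  have hN0g : N0 ≤ g := by
    have h1 : N0 ^ 2 ≤ (g : ℝ) ^ 2 := by
      rw [hN0sq, div_le_iff₀ (by positivity)]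
      nlinarith
    exact (pow_le_pow_iff_left₀ hN0pos.le (by linarith) two_ne_zero).1 h1
  have hp2g : (p : ℝ) ≤ 2 * g := by
    have h1 : (p : ℝ) ^ 2 ≤ (2 * g) ^ 2 := by
      refine hpsq.trans ?_
      rw [← mul_div_assoc, div_le_iff₀ hlpos]
      nlinarith
    exact (pow_le_pow_iff_left₀ hp0.le (by linarith) two_ne_zero).1 h1
  have hB : ∀ m : ℕ, 0 < m → m * m ≤ 2 * g * k → sig p ((g : ℝ) / (m : ℝ)) ^ m ≤ exp 1 := by
    intro m hm hmk
    have hm0 : (0 : ℝ) < m := Nat.cast_pos.2 hm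
    have hmk' : (m : ℝ) * m ≤ 2 * g * k := by exact_mod_cast hmk
    refine sig_pow_le hodd (by positivity) ?_
    have ha : N0 ≤ (g : ℝ) / m := by
      have h1 : N0 ^ 2 ≤ ((g : ℝ) / m) ^ 2 := by
        rw [hN0sq, div_pow, div_le_div_iff₀ (by positivity) (by positivity)]
        nlinarith
      exact (pow_le_pow_iff_left₀ hN0pos.le (by positivity) two_ne_zero).1 h1
    have h1 : 2 * l ≤ π ^ 2 * ((g : ℝ) / m) / (2 * p ^ 2) := by
      rw [le_div_iff₀ (by positivity)]
      have h2 : (p : ℝ) ^ 2 * l ≤ 9 / 4 * N0 := by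
        have := mul_le_mul_of_nonneg_right hpsq hlpos.le
        have h3 : 9 / 4 * (N0 / l) * l = 9 / 4 * N0 := by field_simp
        linarith
      have h3 : (9 : ℝ) ≤ π ^ 2 := by nlinarith [pi_gt_three]
      nlinarith
    have h2 : (m : ℝ) ≤ 2 * g := by
      have h3 : (m : ℝ) ^ 2 ≤ (2 * g) ^ 2 := by
        have h4 : (k : ℝ) ≤ 2 * g := by exact_mod_cast hk2
        nlinarith
      exact (pow_le_pow_iff_left₀ hm0.le (by linarith) two_ne_zero).1 h3
    calc (p : ℝ) * m ≤ (2 * g) * (2 * g) := by gcongr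
      _ = exp (2 * l) := by
        rw [two_mul l, exp_add, hl, exp_log (by linarith)]
      _ ≤ _ := exp_le_exp.2 h1
  have h1 := ncard_degSign (p := p) hp2 hc hc1 hcen hg (k := k) le_rfl (exp_pos 1).le hB
  have h2 : (({f ∈ oddSigns G (fun x => c * x) | DegSign c f}.ncard : ℕ) : ℝ) * (P / 3) ≤
      2 ^ g * (k * exp 1) :=
    (mul_le_mul_of_nonneg_left hp3.le (Nat.cast_nonneg _)).trans h1
  have h3 : exp 1 ≤ 2.7182818286 := exp_one_lt_d9.le
  have h4 : 2 ^ g * (k * exp 1) ≤ 2 ^ g * (7 * k * Q) * (P / 3) := by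
    have h5 : exp 1 ≤ 7 * Q * (P / 3) := by nlinarith
    calc (2 : ℝ) ^ g * (k * exp 1) ≤ 2 ^ g * (k * (7 * Q * (P / 3))) := by gcongr
      _ = _ := by ring
  exact le_of_mul_le_mul_right (h2.trans h4) (by positivity)

end Pool.Agent.TH170.GC
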