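import Mathlib
import Pool.Agent.TH170.GC.Bound
import Pool.Agent.TH170.CM.Field
import Pool.Agent.TH170.MF.Main

/-!
# Degenerate CM types of Galois CM fields with few conjugacy classes
-/

set_option linter.unusedSectionVars false
set_option linter.unusedVariables false

namespace Pool.Agent.TH170.GC

open NumberField Finset Module Pool.Agent.H204R3.CM Pool.Agent.H977R3.CM Pool.Agent.TH170.CM
  Pool.Agent.TH170.MF

variable {E : Type*} [Field E] [NumberField E] [IsCMField E]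

theorem conjQ_ne_one : conjQ E ≠ 1 := by
  intro h
  obtain ⟨φ⟩ : Nonempty (E →+* ℂ) := inferInstance
  apply conj_ne φ
  have h1 := comp_conjQ φ (1 : E ≃ₐ[ℚ] E)
  rw [mul_one, h] at h1
  have h2 : φ.comp ((1 : E ≃ₐ[ℚ] E) : E →+* E) = φ := by
    ext x
    rfl
  rw [h2] at h1
  exact h1.symm

theorem conjQ_comm (x : E ≃ₐ[ℚ] E) : conjQ E * x = x * conjQ E := by
  obtain ⟨φ⟩ : Nonempty (E →+* ℂ) := inferInstance
  ext e
  apply φ.injective
  change φ (IsCMField.complexConj E (x e)) = φ (x (IsCMField.complexConj E e))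
  have h1 := IsCMField.complexEmbedding_complexConj E φ (x e)
  have h2 := IsCMField.complexEmbedding_complexConj E (φ.comp (x : E →+* E)) e
  exact h1.trans h2.symm

variable [IsGalois ℚ E]

theorem usgn_mem (φ₀ : E →+* ℂ) {Φ : Set (E →+* ℂ)} (hΦ : IsCMType Φ) :
    usgn φ₀ Φ ∈ oddSigns (E ≃ₐ[ℚ] E) (fun x => conjQ E * x) := by
  have h1 := oddSign_sgn hΦ
  refine ⟨fun x => h1.1 _, fun x => ?_⟩
  rw [usgn, usgn, comp_conjQ]
  exact h1.2 _

theorem degSign_usgn (φ₀ : E →+* ℂ) {Φ : Set (E →+* ℂ)} (hd : Degenerate Φ) :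
    DegSign (conjQ E) (usgn φ₀ Φ) := by
  classical
  obtain ⟨b, hb0, hodd, hrel⟩ := hd
  refine ⟨fun x => b (φ₀.comp (x : E →+* E)), ?_, ?_, ?_⟩
  · intro h
    apply hb0
    funext φ
    obtain ⟨x, rfl⟩ := (emb_bijective φ₀).2 φ
    exact congrFun h x
  · intro x
    simp only
    rw [comp_conjQ, hodd]
  · intro σ
    obtain ⟨s, hs⟩ := exists_comp_eq E φ₀ (φ₀.comp (σ : E →+* E))
    have h1 := hrel s
    rw [← (Equiv.ofBijective _ (emb_bijective φ₀)).sum_comp] at h1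
    rw [← h1]
    refine sum_congr rfl fun x _ => ?_
    simp only [Equiv.ofBijective_apply, usgn]
    congr 2
    ext e
    exact (RingHom.congr_fun hs (x e)).symm

variable (E)

/-- **The number of degenerate CM types of a Galois CM field.** -/
theorem ncard_degenerate {g : ℕ} (hg : finrank ℚ E = 2 * g) :
    ((degenerateTypes E).ncard : ℝ) ≤
      2 ^ g * (7 * Nat.card (ConjClasses (E ≃ₐ[ℚ] E)) *
        ((Nat.card (ConjClasses (E ≃ₐ[ℚ] E)) : ℝ) / g) ^ (1 / 4 : ℝ) *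
          √(Real.log (2 * g))) := by
  classical
  obtain ⟨φ₀⟩ : Nonempty (E →+* ℂ) := inferInstance
  have hG : Fintype.card (E ≃ₐ[ℚ] E) = 2 * g := by
    rw [← Nat.card_eq_fintype_card, IsGalois.card_aut_eq_finrank, hg]
  refine le_trans ?_ (ncard_degSign_le (c := conjQ E) conjQ_mul conjQ_ne_one conjQ_comm hG)
  rw [Nat.cast_le]
  refine Set.ncard_le_ncard_of_injOn (usgn φ₀) ?_ ?_
    ((finite_oddSigns (X := E ≃ₐ[ℚ] E) (fun x => conjQ E * x)).subset fun f hf => hf.1)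
  · rintro Φ ⟨h1, h2⟩
    exact ⟨usgn_mem φ₀ h1, degSign_usgn φ₀ h2⟩
  · intro Φ _ Ψ _ h
    apply sgn_injective
    funext φ
    obtain ⟨x, rfl⟩ := (emb_bijective φ₀).2 φ
    exact congrFun h x

end Pool.Agent.TH170.GC
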